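import Mathlib
import Pool.Agent.Q199.Dg.Gel2
import Pool.Agent.TH817.Z3.Z
import Pool.Agent.TH250.Z3.Arch

/-!
# A digit criterion for the transcendence of `ζ(3)`, and the minimal polynomial at every scale

1. Let `D ≥ 1`, `ε > 0` and `λ > 1 + 2 D² (1 + ε)`. For every real number `θ` and every base `b`: `θ` is
   algebraic of degree at most `D` if and only if for all large `n` there is a nonconstant
   `P ∈ ℤ[X]` of degree at most `D` with coefficients at most `b^(ε n)` such that `P(θ)` has at most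
   `n` different blocks of `n` digits among its first `⌈λ n⌉` digits.
2. So `ζ(3)` is transcendental if and only if for every `D ≥ 1` there are infinitely many `n` such
   that for ALL nonconstant `P ∈ ℤ[X]` of degree at most `D` with coefficients at most `10^n` the
   number `P(ζ(3))` has more than `n` different blocks of `n` decimals among its first
   `(4 D² + 2) n` decimals.
3. Let `D ≥ 1`, `ε ≥ 0` and `λ > 1 + D (1 + ε) max(2 D, 3.68)`. For all `n ≥ n₀(D, ε, λ)` and all bases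
   `b` there is ONE irreducible polynomial `f ∈ ℤ[X]`, `deg f ≥ 2`, such that for every nonconstant
   `P ∈ ℤ[X]` of degree at most `D` with coefficients at most `b^(ε n)`: `P(ζ(3))` has more than `n`
   different blocks of `n` digits among its first `⌈λ n⌉` digits, or `f` divides `q P - p` for
   integers `p` and `0 < q ≤ b^n` with `|q P(ζ(3)) - p| ≤ b^(-(λ - 1) n)`. So at every scale `ζ(3)`
   behaves like a transcendental number or like an algebraic number with the minimal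
   polynomial `f`.
4. In particular (`D = 1`) `ζ(3)` has for all large `n` more than `n` blocks of `n` digits among its
   first `⌈λ n⌉` digits if `λ > 4.68`, and for `D` and `λ` as in 3 and every `n ≥ n₀` there is `m ≥ 2`
   such that all the powers `ζ(3)^k`, `1 ≤ k ≤ D`, `m ∤ k`, have more than `n` different blocks of
   `n` digits among their first `⌈λ n⌉` digits.
-/

set_option autoImplicit false

open Real Filter Polynomial

namespace Pool.Agent.Results.MP_48b3e2_nt.DigitCriterion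

noncomputable section

/-- the digit of the place `n = 0, 1, …` after the point in the base `b` expansion of `x` -/
def digit (b : ℕ) (x : ℝ) (n : ℕ) : ℤ := ⌊x * (b : ℝ) ^ (n + 1)⌋ % (b : ℤ)

/-- the number of different blocks of `n` digits among the digits of `x` of the places
`s, …, s + L - 1` -/
def blocks (b : ℕ) (x : ℝ) (s n L : ℕ) : ℕ :=
  ((Finset.range (L + 1 - n)).image fun i => fun k : Fin n => digit b x (s + i + k)).card

/-- the nonconstant polynomials of degree at most `D` with coefficients at most `H` -/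
def Polys (D : ℕ) (H : ℝ) : Set ℤ[X] :=
  {P | 0 < P.natDegree ∧ P.natDegree ≤ D ∧ ∀ i, |(P.coeff i : ℝ)| ≤ H}

/-- `ζ(3)` -/
def zeta3 : ℝ := ∑' n : ℕ, 1 / ((n : ℝ) + 1) ^ 3

theorem criterion (D : ℕ) (hD : 1 ≤ D) (ε lam : ℝ) (hε : 0 < ε)
    (hl : 1 + 2 * D ^ 2 * (1 + ε) < lam) (b : ℕ) (hb : 2 ≤ b) (θ : ℝ) :
    (∃ P : ℤ[X], P ≠ 0 ∧ P.natDegree ≤ D ∧ aeval θ P = 0) ↔
      ∀ᶠ n : ℕ in atTop, ∃ P ∈ Polys D ((b : ℝ) ^ (ε * n)),
        blocks b (aeval θ P) 0 n ⌈lam * n⌉₊ ≤ n :=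
  Pool.Agent.Q199.Dg.gel_criterion θ D hD ε lam hε hl b hb

theorem measure : ∃ c : ℝ, 0 < c ∧ ∀ (p : ℤ) (q : ℕ), 1 ≤ q →
    c / (q : ℝ) ^ (4.68 : ℝ) ≤ |zeta3 - (p : ℝ) / q| := by
  obtain ⟨c, hc, h⟩ := Pool.Agent.TH817.Z3.Z_pre Pool.Agent.TH250.Z3.AM
  refine ⟨c, hc, fun p q hq => ?_⟩
  have h1 := h p q hq
  rw [show (4.68 : ℝ) = 468 / 100 by norm_num]
  exact h1

theorem one (D : ℕ) (hD : 1 ≤ D) (ε lam : ℝ) (hε : 0 ≤ ε)
    (hl : 1 + D * (1 + ε) * max (2 * (D : ℝ)) 3.68 < lam) :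
    ∃ n₀ : ℕ, ∀ n, n₀ ≤ n → ∀ b : ℕ, 2 ≤ b → ∃ f : ℤ[X], Irreducible f ∧ 2 ≤ f.natDegree ∧
      ∀ P ∈ Polys D ((b : ℝ) ^ (ε * n)), n < blocks b (aeval zeta3 P) 0 n ⌈lam * n⌉₊ ∨
        ∃ q p : ℤ, 0 < q ∧ (q : ℝ) ≤ (b : ℝ) ^ n ∧
          |aeval zeta3 P * q - p| ≤ (b : ℝ) ^ (-((lam - 1) * n)) ∧ f ∣ C q * P - C p := by
  obtain ⟨c, hc, hm⟩ := measure
  set w : ℝ := (1 + ε) * max (2 * (D : ℝ)) 3.68 with hw
  have hw1 : 2 * D * (1 + ε) ≤ w := by
    rw [hw, mul_comm]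
    exact mul_le_mul_of_nonneg_left (le_max_left _ _) (by linarith)
  have hw2 : (4.68 - 1) * (1 + ε) ≤ w := by
    rw [hw, mul_comm]
    apply mul_le_mul_of_nonneg_left _ (by linarith)
    exact le_trans (by norm_num) (le_max_right _ _)
  obtain ⟨m, hm1, n₀, hn₀, h⟩ := Pool.Agent.Q199.Dg.gel_one zeta3 D hD ε lam w hε hw1 (by
    rw [hw, ← mul_assoc]; exact hl)
  obtain ⟨n₁, h1⟩ := Pool.Agent.Q199.Dg.deg_two zeta3 c 4.68 hc (by norm_num) hm D ε m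
    (by linarith)
  refine ⟨max n₀ n₁, fun n hn b hb => ?_⟩
  rcases h n ((le_max_left _ _).trans hn) b hb with h2 | ⟨f, hf, h2⟩
  · -- any polynomial
    refine ⟨X ^ 2 + 1, ?_, ?_, fun P hP => Or.inl (h2 P hP)⟩
    · have hmon : (X ^ 2 + 1 : ℤ[X]).Monic := by monicity!
      have hdeg : (X ^ 2 + 1 : ℤ[X]).natDegree = 2 := by compute_degree!
      rw [hmon.irreducible_iff_natDegree' ]
      refine ⟨?_, ?_⟩
      · intro h1
        rw [h1] at hdeg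
        simp at hdeg
      · intro f g hf hg hfg hmem
        rw [hdeg] at hmem
        simp only [Finset.mem_Ioc] at hmem
        have hg1 : g.natDegree = 1 := by omega
        obtain ⟨r, hr⟩ : ∃ r : ℤ, g = X + C r := by
          refine ⟨g.coeff 0, ?_⟩
          have := eq_X_add_C_of_natDegree_le_one (p := g) (by omega)
          have hlc : g.coeff 1 = 1 := by
            have := hg.leadingCoeff
            rwa [leadingCoeff, hg1] at this
          rwa [hlc, C_1, one_mul] at this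
        have h3 := congrArg (eval (-r)) hfg
        rw [hr] at h3
        simp only [eval_mul, eval_add, eval_X, eval_C, eval_pow, eval_one] at h3
        nlinarith [sq_nonneg r]
    · have hdeg : (X ^ 2 + 1 : ℤ[X]).natDegree = 2 := by compute_degree!
      rw [hdeg]
  · refine ⟨f, hf.1, h1 n ((le_max_right _ _).trans hn) b hb f hf, fun P hP => ?_⟩
    by_cases h3 : n < blocks b (aeval zeta3 P) 0 n ⌈lam * n⌉₊
    · exact Or.inl h3
    · exact Or.inr (h2 P hP (not_lt.1 h3))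

theorem linear (lam : ℝ) (hl : 4.68 < lam) : ∃ n₀ : ℕ, ∀ n, n₀ ≤ n → ∀ b : ℕ, 2 ≤ b →
    n < blocks b zeta3 0 n ⌈lam * n⌉₊ := by
  obtain ⟨c, hc, hm⟩ := measure
  obtain ⟨m, hm1, n₀, hn₀, h⟩ := Pool.Agent.Q199.Dg.gel_one zeta3 1 le_rfl 0 lam 3.68 le_rfl
    (by norm_num) (by norm_num; norm_num at hl; linarith)
  obtain ⟨n₁, h1⟩ := Pool.Agent.Q199.Dg.deg_two zeta3 c 4.68 hc (by norm_num) hm 1 0 m
    (by norm_num; norm_num at hm1; linarith)
  refine ⟨max n₀ n₁, fun n hn b hb => ?_⟩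
  have hX : Pool.Agent.Q199.Dg.Pol 1 ((b : ℝ) ^ (0 * (n : ℝ))) X := by
    refine ⟨by rw [natDegree_X]; norm_num, by rw [natDegree_X], fun i => ?_⟩
    rw [zero_mul, Real.rpow_zero, coeff_X]
    split_ifs <;> simp
  rcases h n ((le_max_left _ _).trans hn) b hb with h2 | ⟨f, hf, h2⟩
  · have := h2 X hX
    rwa [aeval_X] at this
  · have h3 := h1 n ((le_max_right _ _).trans hn) b hb f hf
    have h4 := hf.2.2.1
    omega

theorem powers (D : ℕ) (hD : 1 ≤ D) (lam : ℝ) (hl : 1 + D * max (2 * (D : ℝ)) 3.68 < lam) :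
    ∃ n₀ : ℕ, ∀ n, n₀ ≤ n → ∀ b : ℕ, 2 ≤ b → ∃ m : ℕ, 2 ≤ m ∧ ∀ k : ℕ, 1 ≤ k → k ≤ D → ¬ m ∣ k →
      n < blocks b (zeta3 ^ k) 0 n ⌈lam * n⌉₊ := by
  obtain ⟨n₀, h⟩ := one D hD 0 lam le_rfl (by simpa using hl)
  refine ⟨n₀, fun n hn b hb => ?_⟩
  obtain ⟨f, hf1, hf2, h1⟩ := h n hn b hb
  obtain ⟨m, hm, h2⟩ := Pool.Agent.Q199.Dg.powers f hf1 hf2
  refine ⟨m, hm, fun k hk1 hkD hmk => ?_⟩
  have h3 := h1 (X ^ k) ⟨by rw [natDegree_X_pow]; omega, by rw [natDegree_X_pow]; exact hkD,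
    fun i => by
      rw [zero_mul, Real.rpow_zero, coeff_X_pow]
      split_ifs <;> simp⟩
  rw [map_pow, aeval_X] at h3
  rcases h3 with h3 | ⟨q, p, hq, -, -, h4⟩
  · exact h3
  · rcases h2 k q p hq h4 with h5 | h5
    · exact absurd h5 hmk
    · omega

theorem result :
    -- 1. the criterion, for every real number
    (∀ D : ℕ, 1 ≤ D → ∀ ε lam : ℝ, 0 < ε → 1 + 2 * D ^ 2 * (1 + ε) < lam → ∀ b : ℕ, 2 ≤ b →
      ∀ θ : ℝ, ((∃ P : ℤ[X], P ≠ 0 ∧ P.natDegree ≤ D ∧ aeval θ P = 0) ↔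
        ∀ᶠ n : ℕ in atTop, ∃ P ∈ Polys D ((b : ℝ) ^ (ε * n)),
          blocks b (aeval θ P) 0 n ⌈lam * n⌉₊ ≤ n)) ∧
    -- 2. the criterion for `ζ(3)`
    (Transcendental ℚ zeta3 ↔ ∀ D : ℕ, 1 ≤ D → ∃ᶠ n : ℕ in atTop, ∀ P ∈ Polys D ((10 : ℝ) ^ n),
      n < blocks 10 (aeval zeta3 P) 0 n ((4 * D ^ 2 + 2) * n)) ∧
    -- 3. the minimal polynomial of a scale
    (∀ D : ℕ, 1 ≤ D → ∀ ε lam : ℝ, 0 ≤ ε → 1 + D * (1 + ε) * max (2 * (D : ℝ)) 3.68 < lam →
      ∃ n₀ : ℕ, ∀ n, n₀ ≤ n → ∀ b : ℕ, 2 ≤ b → ∃ f : ℤ[X], Irreducible f ∧ 2 ≤ f.natDegree ∧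
        ∀ P ∈ Polys D ((b : ℝ) ^ (ε * n)), n < blocks b (aeval zeta3 P) 0 n ⌈lam * n⌉₊ ∨
          ∃ q p : ℤ, 0 < q ∧ (q : ℝ) ≤ (b : ℝ) ^ n ∧
            |aeval zeta3 P * q - p| ≤ (b : ℝ) ^ (-((lam - 1) * n)) ∧ f ∣ C q * P - C p) ∧
    -- 4. `ζ(3)` and its powers
    (∀ lam : ℝ, 4.68 < lam → ∃ n₀ : ℕ, ∀ n, n₀ ≤ n → ∀ b : ℕ, 2 ≤ b →
      n < blocks b zeta3 0 n ⌈lam * n⌉₊) ∧
    (∀ D : ℕ, 1 ≤ D → ∀ lam : ℝ, 1 + D * max (2 * (D : ℝ)) 3.68 < lam →
      ∃ n₀ : ℕ, ∀ n, n₀ ≤ n → ∀ b : ℕ, 2 ≤ b → ∃ m : ℕ, 2 ≤ m ∧ ∀ k : ℕ, 1 ≤ k → k ≤ D → ¬ m ∣ k →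
        n < blocks b (zeta3 ^ k) 0 n ⌈lam * n⌉₊) := by
  refine ⟨criterion, ?_, one, linear, powers⟩
  have key : ∀ D : ℕ, 1 ≤ D → ((∃ P : ℤ[X], P ≠ 0 ∧ P.natDegree ≤ D ∧ aeval zeta3 P = 0) ↔
      ∀ᶠ n : ℕ in atTop, ∃ P ∈ Polys D ((10 : ℝ) ^ n),
        blocks 10 (aeval zeta3 P) 0 n ((4 * D ^ 2 + 2) * n) ≤ n) := by
    intro D hD
    rw [criterion D hD 1 (4 * D ^ 2 + 2) one_pos (by ring_nf; linarith) 10 (by norm_num) zeta3]
    apply Filter.eventually_congr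
    filter_upwards with n
    have e1 : ⌈(4 * (D : ℝ) ^ 2 + 2) * n⌉₊ = (4 * D ^ 2 + 2) * n := by
      have : (4 * (D : ℝ) ^ 2 + 2) * n = (((4 * D ^ 2 + 2) * n : ℕ) : ℝ) := by push_cast; rfl
      rw [this, Nat.ceil_natCast]
    have e2 : (((10 : ℕ) : ℝ) ^ (1 * (n : ℝ))) = (10 : ℝ) ^ n := by
      rw [one_mul, Real.rpow_natCast]; norm_num
    rw [e1, e2]
  constructor
  · intro htr D hD
    rw [Filter.Frequently]
    intro hcon
    obtain ⟨P, hP, -, hP0⟩ := (key D hD).2 (by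
      filter_upwards [hcon] with n hn
      push Not at hn
      exact hn)
    apply htr
    refine ⟨P.map (Int.castRingHom ℚ), ?_, ?_⟩
    · exact (Polynomial.map_ne_zero_iff (RingHom.injective_int _)).2 hP
    · rw [← algebraMap_int_eq, aeval_map_algebraMap]
      exact hP0
  · intro h halg
    obtain ⟨P, hP, hP0⟩ := (IsFractionRing.isAlgebraic_iff ℤ ℚ ℝ).2 halg
    have hD : 1 ≤ max 1 P.natDegree := le_max_left _ _
    have h1 := (key _ hD).1 ⟨P, hP, le_max_right _ _, hP0⟩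
    have h2 := h _ hD
    rw [Filter.Frequently] at h2
    apply h2
    filter_upwards [h1] with n hn
    push Not
    exact hn

end

end Pool.Agent.Results.MP_48b3e2_nt.DigitCriterion
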