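import Mathlib
import Pool.Agent.Q158.EqD.MinPol
import Pool.Agent.Q158.EqD.ZThree

/-!
# `ζ(3)` at a finite scale: a transcendental number or an algebraic number with a minimal polynomial

Let `D_N(y)` be the discrepancy of the numbers `y, 2 y, …, N y` modulo one; `y` is rational if and
only if `D_N(y)` does not tend to zero. If `ζ(3)` is algebraic with the minimal polynomial `f`, then
`deg f ≥ 2` and `P(ζ(3))` is rational exactly for the polynomials `P` which are constant modulo `f`;
if `ζ(3)` is transcendental, then `P(ζ(3))` is irrational for all nonconstant `P`. We prove that this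
alternative holds at every finite scale: for every `d` there are `κ, K > 0` such that for EVERY
`N ≥ 1` there is an irreducible polynomial `f = f_N ∈ ℤ[X]` of degree at least two such that every
nonconstant `P ∈ ℤ[X]` of degree at most `d` with coefficients at most `N ^ κ` either
satisfies `D_M(P(ζ(3))) ≤ K N ^ (-κ)` for ALL `M ≥ N`, or is constant modulo `f_N`: `f_N` divides
`q P - p` for some integers `p` and `q > 0`.

For instance, the polynomials `a X² + b X` of this kind with a large discrepancy at some scale `M ≥ N`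
all have the same quotient `b / a`, and for the powers `ζ(3) ^ k`, `1 ≤ k ≤ k₀`: for every `N`
there is an `m ≥ 2` such that `D_M(ζ(3) ^ k) ≤ K N ^ (-κ)` for all `M ≥ N` and all `k` which are not
divisible by `m` (second part of the theorem).

Proof. If `D_M(y) > δ` then `y` has a rational approximation with a denominator `≤ 12 / δ` and the
error at most `16 / (δ M)`. For `y = P(ζ(3))` this gives an integer polynomial `q P - p` with a very
small value at `ζ(3)`, and so an irreducible factor with a very small value. Two such factors with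
different zeros have a resultant smaller than one, hence they coincide; and the
factor is not linear because of the irrationality measure of `ζ(3)`.
-/

set_option autoImplicit false

open Real Polynomial

namespace Pool.Agent.Results.MP_48b3e2_nt.MinimalPolynomialAtScales

noncomputable section

/-- The number of the `n`, `1 ≤ n ≤ N`, for which the fractional part of `n x` lies in `[a, b)`. -/
def count (x : ℝ) (N : ℕ) (a b : ℝ) : ℕ :=
  ((Finset.Icc 1 N).filter fun n : ℕ => a ≤ Int.fract (n * x) ∧ Int.fract (n * x) < b).card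

/-- The discrepancy of `x, 2 x, …, N x` modulo one: the supremum over the intervals
`[a, b) ⊆ [0, 1)` of the difference between the proportion of the `n ≤ N` with `n x` in `[a, b)`
modulo one and the length of the interval. -/
def discrepancy (x : ℝ) (N : ℕ) : ℝ :=
  sSup {d | ∃ a b : ℝ, 0 ≤ a ∧ a ≤ b ∧ b ≤ 1 ∧ d = |(count x N a b : ℝ) / N - (b - a)|}

/-- `ζ(3)` -/
def zeta3 : ℝ := ∑' n : ℕ, 1 / ((n : ℝ) + 1) ^ 3

/-- The discrepancy of `y` is at most `K N ^ (-κ)` at all the scales `M ≥ N`. -/
def Uniform (κ K : ℝ) (N : ℕ) (y : ℝ) : Prop :=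
  ∀ M : ℕ, N ≤ M → discrepancy y M ≤ K * (N : ℝ) ^ (-κ)

theorem result :
    (∀ d : ℕ, ∃ κ K : ℝ, 0 < κ ∧ 0 < K ∧ ∀ N : ℕ, 0 < N →
      ∃ f : ℤ[X], Irreducible f ∧ 2 ≤ f.natDegree ∧
        ∀ P : ℤ[X], 0 < P.natDegree → P.natDegree ≤ d →
          (∀ i, |(P.coeff i : ℝ)| ≤ (N : ℝ) ^ κ) →
          Uniform κ K N (aeval zeta3 P) ∨ ∃ (q : ℕ) (p : ℤ), 0 < q ∧ f ∣ C (q : ℤ) * P - C p) ∧
    (∀ k₀ : ℕ, ∃ κ K : ℝ, 0 < κ ∧ 0 < K ∧ ∀ N : ℕ, 0 < N →
      ∃ m : ℕ, 2 ≤ m ∧ ∀ k : ℕ, k ≤ k₀ → ¬ m ∣ k → Uniform κ K N (zeta3 ^ k)) ∧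
    -- the discrepancy tends to zero exactly for the irrational numbers
    (∀ x : ℝ, Filter.Tendsto (fun N : ℕ => discrepancy x N) Filter.atTop (nhds 0) ↔
      Irrational x) := by
  obtain ⟨c, μ, hc, hμ, hm⟩ := Pool.Agent.Q158.EqD.z3_measure
  refine ⟨?_, ?_, Pool.Agent.Q158.EqD.tendsto_iff⟩
  · intro d
    obtain ⟨κ, K, h1, h2, h3⟩ := Pool.Agent.Q158.EqD.minpol zeta3 c μ hc hμ hm d
    refine ⟨κ, K, h1, h2, fun N hN => ?_⟩
    obtain ⟨f, hf1, hf2, hf3⟩ := h3 N hN
    refine ⟨f, hf1, hf2, fun P hP0 hPd hPN => ?_⟩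
    by_cases hU : Uniform κ K N (aeval zeta3 P)
    · exact Or.inl hU
    · refine Or.inr (hf3 P hP0 hPd hPN ?_)
      unfold Uniform at hU
      push Not at hU
      exact hU
  · intro k₀
    have hz0 : zeta3 ≠ 0 := by
      have hs : Summable fun n : ℕ => 1 / ((n : ℝ) + 1) ^ 3 := by
        have := (summable_nat_add_iff 1).2 (Real.summable_one_div_nat_pow.2 (by norm_num : 1 < 3))
        simpa using this
      exact (hs.tsum_pos (fun n => by positivity) 0 (by norm_num)).ne'
    obtain ⟨κ, K, h1, h2, h3⟩ := Pool.Agent.Q158.EqD.monomials (fun _ : Fin 1 => zeta3)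
      (fun _ => hz0) k₀
    refine ⟨κ, K, h1, h2, fun N hN => ?_⟩
    obtain ⟨F, hF, h4⟩ := h3 N hN
    -- the subgroup of the integers
    set G : AddSubgroup ℤ := AddSubgroup.closure
      {k : ℤ | |k| ≤ k₀ ∧ ∃ M : ℕ, N ≤ M ∧ K * (N : ℝ) ^ (-κ) < discrepancy (zeta3 ^ k) M} with hG
    have hGF : ∀ k ∈ G, zeta3 ^ k ∈ F := by
      intro k hk
      have : (fun _ : Fin 1 => k) ∈ AddSubgroup.closure
          (Pool.Agent.Q158.EqD.badExp (fun _ : Fin 1 => zeta3) k₀ κ K N) := by
        rw [hG] at hk
        induction hk using AddSubgroup.closure_induction with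
        | mem a ha =>
          apply AddSubgroup.subset_closure
          obtain ⟨ha1, M, hM1, hM2⟩ := ha
          refine ⟨fun _ => ha1, M, hM1, ?_⟩
          rw [Fin.prod_univ_one]
          exact hM2
        | zero => exact AddSubgroup.zero_mem _
        | add a b _ _ ha hb => exact AddSubgroup.add_mem _ ha hb
        | neg a _ ha => exact AddSubgroup.neg_mem _ ha
      have := h4 _ this
      rwa [Fin.prod_univ_one] at this
    obtain ⟨g, hg⟩ := Int.subgroup_cyclic G
    have hg1 : g ≠ 1 ∧ g ≠ -1 := by
      have key : ∀ u : ℤ, u ∈ G → u ≠ 1 := by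
        intro u hu h
        rw [h] at hu
        have := hGF 1 hu
        rw [zpow_one] at this
        exact hF.one zeta3 c μ hc hμ hm this
      have hgm : g ∈ G := by
        rw [hg]; exact AddSubgroup.mem_closure_singleton_self g
      refine ⟨key g hgm, fun h => ?_⟩
      exact key (-g) (G.neg_mem hgm) (by rw [h]; norm_num)
    have hbad : ∀ k : ℕ, k ≤ k₀ → ¬ Uniform κ K N (zeta3 ^ k) → g ∣ (k : ℤ) := by
      intro k hk hU
      have hmem : (k : ℤ) ∈ G := by
        rw [hG]
        apply AddSubgroup.subset_closure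
        refine ⟨?_, ?_⟩
        · rw [abs_of_nonneg (by positivity)]
          exact_mod_cast hk
        · unfold Uniform at hU
          push Not at hU
          rw [zpow_natCast]
          exact hU
      rw [hg, AddSubgroup.mem_closure_singleton] at hmem
      obtain ⟨n, hn⟩ := hmem
      exact ⟨n, by rw [← hn, smul_eq_mul, mul_comm]⟩
    by_cases hg0 : g = 0
    · refine ⟨2, le_rfl, fun k hk hndvd => ?_⟩
      by_contra hU
      have := hbad k hk hU
      rw [hg0, zero_dvd_iff] at this
      have hk0 : k = 0 := by exact_mod_cast this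
      exact hndvd (by rw [hk0]; exact dvd_zero _)
    · refine ⟨g.natAbs, by omega, fun k hk hndvd => ?_⟩
      by_contra hU
      have := hbad k hk hU
      exact hndvd (Int.natAbs_dvd_natAbs.2 this)

end

end Pool.Agent.Results.MP_48b3e2_nt.MinimalPolynomialAtScales
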