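import Pool.Agent.Q189.Z3.Crit

/-!
# The transcendence of `ζ(3)` and the values of the single-valued trilogarithm at `1/n`, `1 - 1/n` and `1/(1-n)`

Let `L(x) = Li_3(x) - log |x| Li_2(x) + (1/3) log² |x| Li_1(x)` be the single-valued trilogarithm (on the interval
`-1 < x < 1`). The known identity `L(x) + L(1 - x) + L(x / (x - 1)) = ζ(3)` shows that the three values at `x = 1/n` are
algebraically dependent if `ζ(3)` is algebraic, for ALL `n`. We prove a converse, which only uses the values at one `n` for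
each degree:

* `ζ(3)` is transcendental if and only if for each `d` there is ONE integer `n ≥ 3` such that the three numbers `L(1/n)`,
  `L(1 - 1/n)`, `L(1/(1-n))` satisfy no nontrivial polynomial relation of degree at most `d` with integral coefficients; in
  this case this holds for all integers `n ≤ T` with at most `C T ^ (1 - c)` exceptions, `C` and `c > 0` depending on `d`;
* for arbitrary real numbers `ζ_1, …, ζ_g`: the numbers `ζ(3), ζ_1, …, ζ_g` are algebraically independent if and only if for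
  each `d` there is one `n ≥ 3` such that the `g + 3` numbers `L(1/n)`, `L(1 - 1/n)`, `L(1/(1-n))`, `ζ_1, …, ζ_g` satisfy no
  relation of degree at most `d`;
* the theorem behind it: for almost all tuples `(t_1, …, t_k)` of real algebraic integers `t_j > 2`, of degree at most `m`
  with conjugates at most `T`, the `2 k` numbers `L(1/t_j)`, `L(1 - 1/t_j)` are generic over `ζ(3)` and any given complex numbers
  `ζ_1, …, ζ_g` for near relations of degree at most `d`: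
  `|P(w, ζ(3), ζ)| ≤ (H max(1, |w|)) ^ B |P((L(1/t_j), L(1 - 1/t_j))_j, ζ(3), ζ)|` for all integral polynomials `P` of degree at
  most `d` and height at most `H` and ALL `w`. So the identity above is the only relation of the `3 k` values, and each measure
  for the transcendence of `ζ(3)` gives a measure for the independence of the three values at almost all `n`, and conversely.

Proof. (1) Li_3, Li_2 and Li_1 at `1 - x` are, by path composition, polynomials in `log x`, `log (1 - x)`, the multiple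
polylogarithms of weight at most three in one variable at `x` with letters `0`, `1`, and `ζ(2)`, `ζ(3)`; in the
combination `L(1 - x)` the number `ζ(2)` disappears. (2) These multiple polylogarithms form a connected family of
G-functions and are algebraically independent except for the shuffle relations. (3) The transfer of near relations at
almost all tuples of algebraic integers from values of such families to all solutions (`Pool.Agent.Q189.MF`, helper246's
bootstrap), with constants. (4) The pair `L(x)`, `ζ(3) - L(1 - x)` is algebraically independent as a pair of polynomials in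
the shuffle algebra and the logarithms, with bounds for the elimination.
-/

set_option autoImplicit false

namespace Pool.Agent.Results.MP_48b3e2_nt.TrilogarithmCriterion

/-- `ζ(3)` -/
noncomputable def zeta3 : ℝ := ∑' n : ℕ, (1 : ℝ) / ((n : ℝ) + 1) ^ 3

/-- the polylogarithm `Li_s(x) = ∑ x ^ m / m ^ s` -/
noncomputable def Li (s : ℕ) (x : ℝ) : ℝ := ∑' m : ℕ, x ^ (m + 1) / ((m : ℝ) + 1) ^ s

/-- the single-valued trilogarithm for `-1 < x < 1`, `x ≠ 0` (`Real.log x` is the logarithm of `|x|`) -/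
noncomputable def L (x : ℝ) : ℝ := Li 3 x - Real.log x * Li 2 x + 1 / 3 * Real.log x ^ 2 * Li 1 x

/-- the three values at `n` -/
noncomputable def triple (n : ℕ) : Fin 3 → ℝ := ![L (1 / n), L (1 - 1 / n), L (1 / (1 - n))]

/-- the three values at `n` and the numbers `ζ` satisfy a nontrivial relation of degree at most `d` -/
def Related {g : ℕ} (ζ : Fin g → ℝ) (d n : ℕ) : Prop :=
  ∃ P : MvPolynomial (Fin 3 ⊕ Fin g) ℤ, P ≠ 0 ∧ P.totalDegree ≤ d ∧ MvPolynomial.aeval (Sum.elim (triple n) ζ) P = 0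

/-- the `2 k` numbers `L(1/t_j)`, `L(1 - 1/t_j)` -/
noncomputable def numbers {k : ℕ} (t : Fin k → ℝ) (v : Fin k × Fin 2) : ℂ :=
  ![((L (1 / t v.1) : ℝ) : ℂ), ((L (1 - 1 / t v.1) : ℝ) : ℂ)] v.2

/-- the constants `ζ(3), ζ_1, …, ζ_g` -/
noncomputable def constants {g : ℕ} (ζ : Fin g → ℂ) : Fin (g + 1) → ℂ := Fin.cons ((zeta3 : ℝ) : ℂ) ζ

/-- the algebraic integers of degree at most `m` all of whose conjugates have absolute value at most `T` -/
def Ints (m T : ℕ) : Set ℂ :=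
  {α | IsIntegral ℤ α ∧ (minpoly ℚ α).natDegree ≤ m ∧ ∀ z : ℂ, Polynomial.aeval z (minpoly ℚ α) = 0 → ‖z‖ ≤ T}

/-- The transfer of near relations at the height `H` (nothing is asserted if some coordinate of `x` is not real and `> 2`). -/
def Good {k g : ℕ} (d B : ℕ) (ζ : Fin g → ℂ) (x : Fin k → ℂ) (H : ℝ) : Prop :=
  ∀ t : Fin k → ℝ, (∀ j, 2 < t j ∧ ((t j : ℝ) : ℂ) = x j) →
    ∀ P : MvPolynomial ((Fin k × Fin 2) ⊕ Fin (g + 1)) ℤ, P.totalDegree ≤ d → (∀ e, |((P.coeff e : ℤ) : ℝ)| ≤ H) →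
      ∀ w : Fin k × Fin 2 → ℂ, ‖MvPolynomial.aeval (Sum.elim w (constants ζ)) P‖ ≤
        (H * max 1 ‖w‖) ^ B * ‖MvPolynomial.aeval (Sum.elim (numbers t) (constants ζ)) P‖

/-- (1) the identity; (2) the criterion for the transcendence of `ζ(3)`, with the number of exceptions; (3) the criterion for the
algebraic independence of `ζ(3)` and arbitrary real numbers; (4) the transfer of near relations at almost all tuples. -/
theorem result :
    (∀ n : ℕ, 3 ≤ n → L (1 / n) + L (1 - 1 / n) + L (1 / (1 - n)) = zeta3) ∧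
    ((Transcendental ℚ zeta3 ↔ ∀ d : ℕ, ∃ n : ℕ, 3 ≤ n ∧ ∀ P : MvPolynomial (Fin 3) ℤ, P ≠ 0 → P.totalDegree ≤ d →
        MvPolynomial.aeval (triple n) P ≠ 0) ∧
      (Transcendental ℚ zeta3 ↔ ∀ d : ℕ, ∃ C c : ℝ, 0 < c ∧ ∀ T : ℕ, 1 ≤ T →
        (({n : ℕ | 3 ≤ n ∧ n ≤ T ∧ ∃ P : MvPolynomial (Fin 3) ℤ, P ≠ 0 ∧ P.totalDegree ≤ d ∧
          MvPolynomial.aeval (triple n) P = 0}.ncard : ℕ) : ℝ) ≤ C * (T : ℝ) ^ (1 - c))) ∧
    (∀ (g : ℕ) (ζ : Fin g → ℝ),
      (AlgebraicIndependent ℚ (Fin.cons zeta3 ζ : Fin (g + 1) → ℝ) ↔ ∀ d : ℕ, ∃ n : ℕ, 3 ≤ n ∧ ¬ Related ζ d n) ∧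
      (AlgebraicIndependent ℚ (Fin.cons zeta3 ζ : Fin (g + 1) → ℝ) ↔ ∀ d : ℕ, ∃ C c : ℝ, 0 < c ∧ ∀ T : ℕ, 1 ≤ T →
        (({n : ℕ | 3 ≤ n ∧ n ≤ T ∧ Related ζ d n}.ncard : ℕ) : ℝ) ≤ C * (T : ℝ) ^ (1 - c))) ∧
    ∀ k g d m : ℕ, 1 ≤ m → ∃ (B : ℕ) (C c : ℝ), 0 < c ∧ ∀ T : ℕ, 1 ≤ T →
      (∃ H₀ : ℝ, ∀ H₁ : ℝ, H₀ ≤ H₁ → ∀ ζ : Fin g → ℂ,
        (({x : Fin k → ℂ | (∀ j, x j ∈ Ints m T) ∧ ¬ ∀ H : ℝ, H₁ ≤ H → H ≤ H₁ ^ Real.exp ((T : ℝ) ^ c) →
          Good d B ζ x H}.ncard : ℕ) : ℝ) ≤ C * (T : ℝ) ^ (-c) * (((Ints m T).ncard : ℕ) : ℝ) ^ k) ∧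
      ∀ ζ : Fin g → ℂ, (({x : Fin k → ℂ | (∀ j, x j ∈ Ints m T) ∧ ¬ ∀ N₀ : ℕ, ∃ N, N₀ ≤ N ∧
        (({s : ℕ | s < N ∧ ¬ ∀ H : ℝ, 2 ^ (2 ^ s) ≤ H → H ≤ 2 ^ (2 ^ (s + 1)) →
          Good d B ζ x H}.ncard : ℕ) : ℝ) ≤ (T : ℝ) ^ (-c) * N}.ncard : ℕ) : ℝ) ≤
            C * (T : ℝ) ^ (-c) * (((Ints m T).ncard : ℕ) : ℝ) ^ k := by
  have hz : zeta3 = Pool.Agent.Q189.Z3.Li 3 1 := by
    unfold zeta3 Pool.Agent.Q189.Z3.Li
    simp only [one_pow]
  have hL : L = Pool.Agent.Q189.Z3.L3 := rfl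
  have ht : triple = Pool.Agent.Q189.Z3.trip := rfl
  have hcrit : ∀ (g : ℕ) (ζ : Fin g → ℝ),
      (AlgebraicIndependent ℚ (Fin.cons zeta3 ζ : Fin (g + 1) → ℝ) ↔ ∀ d : ℕ, ∃ n : ℕ, 3 ≤ n ∧ ¬ Related ζ d n) ∧
      (AlgebraicIndependent ℚ (Fin.cons zeta3 ζ : Fin (g + 1) → ℝ) ↔ ∀ d : ℕ, ∃ C c : ℝ, 0 < c ∧ ∀ T : ℕ, 1 ≤ T →
        (({n : ℕ | 3 ≤ n ∧ n ≤ T ∧ Related ζ d n}.ncard : ℕ) : ℝ) ≤ C * (T : ℝ) ^ (1 - c)) := by
    intro g ζ
    rw [hz]
    exact Pool.Agent.Q189.Z3.crit ζ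
  refine ⟨fun n hn => ?_, ?_, hcrit, ?_⟩
  · rw [hz]
    exact Pool.Agent.Q189.Z3.trip_sum hn
  · have h1 : Transcendental ℚ zeta3 ↔ AlgebraicIndependent ℚ (Fin.cons zeta3 Fin.elim0 : Fin (0 + 1) → ℝ) :=
      (algebraicIndependent_unique_type_iff (R := ℚ) (ι := Fin 1) (x := (Fin.cons zeta3 Fin.elim0 : Fin 1 → ℝ))).symm
    have h2 : ∀ d n, Related (Fin.elim0 : Fin 0 → ℝ) d n ↔ ∃ P : MvPolynomial (Fin 3) ℤ, P ≠ 0 ∧ P.totalDegree ≤ d ∧
        MvPolynomial.aeval (triple n) P = 0 := by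
      intro d n
      constructor
      · rintro ⟨P, hP0, hPd, hP⟩
        have hinj : Function.Injective (Equiv.sumEmpty (Fin 3) (Fin 0)) := Equiv.injective _
        refine ⟨MvPolynomial.rename (Equiv.sumEmpty (Fin 3) (Fin 0)) P, fun h0 => hP0 ?_, ?_, ?_⟩
        · exact (MvPolynomial.rename_injective _ hinj) (by rw [h0, map_zero])
        · exact (MvPolynomial.totalDegree_rename_le _ _).trans hPd
        · rw [MvPolynomial.aeval_rename, ← hP]
          congr 2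
          funext v
          rcases v with v | v
          · rfl
          · exact v.elim0
      · rintro ⟨P, hP0, hPd, hP⟩
        refine ⟨MvPolynomial.rename Sum.inl P, fun h0 => hP0 ?_, (MvPolynomial.totalDegree_rename_le _ _).trans hPd, ?_⟩
        · exact (MvPolynomial.rename_injective _ Sum.inl_injective) (by rw [h0, map_zero])
        · rw [MvPolynomial.aeval_rename]
          exact hP
    have h3 := hcrit 0 Fin.elim0
    rw [← h1] at h3
    simp only [h2] at h3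
    refine ⟨h3.1.trans ⟨fun h d => ?_, fun h d => ?_⟩, h3.2⟩
    · obtain ⟨n, hn, hne⟩ := h d
      exact ⟨n, hn, fun P hP0 hPd hP => hne ⟨P, hP0, hPd, hP⟩⟩
    · obtain ⟨n, hn, hne⟩ := h d
      exact ⟨n, hn, fun ⟨P, hP0, hPd, hP⟩ => hne P hP0 hPd hP⟩
  · intro k g d m hm
    have hG : ∀ (B : ℕ) (ζ : Fin g → ℂ) (x : Fin k → ℂ) (H : ℝ), Good d B ζ x H ↔ Pool.Agent.Q189.Z3.GZ d B ζ x H := by
      intro B ζ x H
      unfold Good Pool.Agent.Q189.Z3.GZ Pool.Agent.Q189.Z3.FZ constants Pool.Agent.Q189.Z3.cz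
      rw [hz]
      exact Iff.rfl
    simp only [hG]
    exact Pool.Agent.Q189.Z3.main k g d m hm

end Pool.Agent.Results.MP_48b3e2_nt.TrilogarithmCriterion
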