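import Pool.Agent.Q138.PS.VV
import Pool.Agent.Q189.Z3.Crit

/-!
# The transcendence of `ζ(3)` and the values of the single-valued trilogarithm at `1/t`, `1 - 1/t`, `1/(1-t)`, `t` close to `α P(n)`

Let `L(x) = Li_3(x) - log |x| Li_2(x) + (1/3) log² |x| Li_1(x)` be the single-valued trilogarithm on `-1 < x < 1`. It is known
that `L(1/t) + L(1 - 1/t) + L(1/(1-t)) = ζ(3)` for all integers `t ≥ 3`.

Let `q ≥ 2` and let `z_0, z_1, …` be any sequence of real numbers, for instance `ζ(5), ζ(7), …`. Outside a set of real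
numbers of Hausdorff dimension at most `q / (q + 1 / (q 2 ^ (q - 1)))` (that is `8 / 9` for `q = 2`) every `α > 0` has the
following property. There is `η > 0` such that:

* `ζ(3)` is transcendental if and only if for each `d` there is `κ > 0` such that for all large `N` and ALL integral
  polynomials `P` of degree `q` with positive leading coefficient and coefficients of size at most `N ^ η`, for all but
  `N ^ (1 - κ)` of the `n ≤ N` and for EVERY integer `t ≥ 3` with `|t - ⌊α P(n)⌋| ≤ N ^ κ`, the three numbers `L(1/t)`,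
  `L(1 - 1/t)`, `L(1/(1-t))` satisfy no relation of degree at most `d`;
* for every finite subfamily `z_(i_1), …, z_(i_g)`: the numbers `ζ(3), z_(i_1), …, z_(i_g)` are algebraically independent if
  and only if the same holds for the relations between the three values and `z_(i_1), …, z_(i_g)`.

So if for ONE such `α`, ONE such `P` and each `d` the relations of degree at most `d` do not occur at all `n ≤ N`, for large `N`,
then they occur in fact for at most `N ^ (1 - κ)` of the `n`, for all `α` outside the exceptional set, all `P`, and all `t` in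
windows of length `N ^ κ`.
-/

set_option autoImplicit false

namespace Pool.Agent.Results.MP_48b3e2_nt.TrilogarithmsAlongMultiples

open Filter Pool.Agent.Q138.PS

/-- `ζ(3)` -/
noncomputable def zeta3 : ℝ := ∑' n : ℕ, (1 : ℝ) / ((n : ℝ) + 1) ^ 3

/-- the polylogarithm `Li_s(x) = ∑ x ^ m / m ^ s` -/
noncomputable def Li (s : ℕ) (x : ℝ) : ℝ := ∑' m : ℕ, x ^ (m + 1) / ((m : ℝ) + 1) ^ s

/-- the single-valued trilogarithm for `-1 < x < 1`, `x ≠ 0` (`Real.log x` is the logarithm of `|x|`) -/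
noncomputable def L (x : ℝ) : ℝ := Li 3 x - Real.log x * Li 2 x + 1 / 3 * Real.log x ^ 2 * Li 1 x

/-- the three values at `n` -/
noncomputable def triple (n : ℕ) : Fin 3 → ℝ := ![L (1 / n), L (1 - 1 / n), L (1 / (1 - n))]

/-- the three values at `n` and the numbers `ζ` satisfy a nontrivial relation of degree at most `d` -/
def Related {g : ℕ} (ζ : Fin g → ℝ) (d n : ℕ) : Prop :=
  ∃ P : MvPolynomial (Fin 3 ⊕ Fin g) ℤ, P ≠ 0 ∧ P.totalDegree ≤ d ∧ MvPolynomial.aeval (Sum.elim (triple n) ζ) P = 0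

/-- For all large `N` and all polynomials `P` of degree `q` with positive leading coefficient and coefficients of size at most
`N ^ η`: for all but `N ^ (1 - κ)` of the `n ≤ N` no integer `t ≥ b` at distance at most `N ^ κ` from `⌊α P(n)⌋` has the
property `A`; for some `κ > 0`. -/
def Rare (q : ℕ) (α η : ℝ) (b : ℕ) (A : ℕ → Prop) : Prop :=
  ∃ κ : ℝ, 0 < κ ∧ ∀ᶠ N : ℕ in atTop, ∀ P : Polynomial ℤ, P.natDegree = q → 0 < P.leadingCoeff →
    (∀ j, |((P.coeff j : ℤ) : ℝ)| ≤ (N : ℝ) ^ η) →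
      (badW (fun t => b ≤ t ∧ A t) ⌊(N : ℝ) ^ κ⌋₊ α P N : ℝ) ≤ (N : ℝ) ^ (1 - κ)

/-- **Theorem.** -/
theorem result (q : ℕ) (hq : 2 ≤ q) (z : ℕ → ℝ) :
    ∃ E : Set ℝ, dimH E ≤ ENNReal.ofReal (q / (q + 1 / ((q : ℝ) * 2 ^ (q - 1)))) ∧ ∀ α : ℝ, 0 < α → α ∉ E →
      ∃ η : ℝ, 0 < η ∧
      (Transcendental ℚ zeta3 ↔ ∀ d : ℕ, Rare q α η 3 fun t => ∃ P : MvPolynomial (Fin 3) ℤ, P ≠ 0 ∧
        P.totalDegree ≤ d ∧ MvPolynomial.aeval (triple t) P = 0) ∧
      ∀ (g : ℕ) (i : Fin g → ℕ),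
        AlgebraicIndependent ℚ (Fin.cons zeta3 (fun l => z (i l)) : Fin (g + 1) → ℝ) ↔
          ∀ d : ℕ, Rare q α η 3 (Related (fun l => z (i l)) d) := by
  classical
  have hz : zeta3 = Pool.Agent.Q189.Z3.Li 3 1 := by
    unfold zeta3 Pool.Agent.Q189.Z3.Li
    simp only [one_pow]
  have hcrit : ∀ (g : ℕ) (ζ : Fin g → ℝ),
      (AlgebraicIndependent ℚ (Fin.cons zeta3 ζ : Fin (g + 1) → ℝ) ↔ ∀ d : ℕ, ∃ n : ℕ, 3 ≤ n ∧ ¬ Related ζ d n) ∧
      (AlgebraicIndependent ℚ (Fin.cons zeta3 ζ : Fin (g + 1) → ℝ) ↔ ∀ d : ℕ, ∃ C c : ℝ, 0 < c ∧ ∀ T : ℕ, 1 ≤ T →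
        (({n : ℕ | 3 ≤ n ∧ n ≤ T ∧ Related ζ d n}.ncard : ℕ) : ℝ) ≤ C * (T : ℝ) ^ (1 - c)) := by
    intro g ζ
    rw [hz]
    exact Pool.Agent.Q189.Z3.crit ζ
  obtain ⟨E, hE, hg⟩ := exc_bad (ι := (Σ g : ℕ, Fin g → ℕ) × ℕ) q hq
    (fun i t => 3 ≤ t ∧ Related (fun l => z (i.1.2 l)) i.2 t)
  refine ⟨E, hE, fun α hα hαE => ?_⟩
  obtain ⟨η, hη, h1⟩ := hg α hα hαE
  have hmain : ∀ (g : ℕ) (i : Fin g → ℕ),
        AlgebraicIndependent ℚ (Fin.cons zeta3 (fun l => z (i l)) : Fin (g + 1) → ℝ) ↔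
          ∀ d : ℕ, Rare q α η 3 (Related (fun l => z (i l)) d) := by
    intro g i
    constructor
    · intro h d
      obtain ⟨C, c, hc, hf⟩ := (hcrit g _).2.1 h d
      exact h1 (⟨g, i⟩, d) C c hc (cn_of_range _ 3 C c hf)
    · intro h
      refine (hcrit g _).1.2 fun d => ?_
      obtain ⟨κ, hκ, hN⟩ := h d
      refine exists_good (q := q) (α := α) hκ ?_
      filter_upwards [hN, eventually_ge_atTop 1] with N hN hN1
      refine hN (Polynomial.X ^ q) (Polynomial.natDegree_X_pow q) (by rw [(Polynomial.monic_X_pow q).leadingCoeff]; norm_num)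
        fun j => ?_
      have h2 : (1 : ℝ) ≤ (N : ℝ) ^ η := Real.one_le_rpow (by exact_mod_cast hN1) hη.le
      rw [Polynomial.coeff_X_pow]
      split_ifs
      · simpa using h2
      · simp only [Int.cast_zero, abs_zero]
        linarith
  refine ⟨η, hη, ?_, hmain⟩
  have h2 : Transcendental ℚ zeta3 ↔ AlgebraicIndependent ℚ (Fin.cons zeta3 Fin.elim0 : Fin (0 + 1) → ℝ) :=
    (algebraicIndependent_unique_type_iff (R := ℚ) (ι := Fin 1) (x := (Fin.cons zeta3 Fin.elim0 : Fin 1 → ℝ))).symm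
  have h3 := hmain 0 Fin.elim0
  have h4 : (fun l : Fin 0 => z ((Fin.elim0 : Fin 0 → ℕ) l)) = (Fin.elim0 : Fin 0 → ℝ) := funext fun l => l.elim0
  rw [h4] at h3
  rw [h2, h3]
  have h5 : ∀ d, (Related (Fin.elim0 : Fin 0 → ℝ) d) = fun n => ∃ P : MvPolynomial (Fin 3) ℤ, P ≠ 0 ∧ P.totalDegree ≤ d ∧
      MvPolynomial.aeval (triple n) P = 0 := by
    intro d
    funext n
    apply propext
    constructor
    · rintro ⟨P, hP0, hPd, hP⟩
      have hinj : Function.Injective (Equiv.sumEmpty (Fin 3) (Fin 0)) := Equiv.injective _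
      refine ⟨MvPolynomial.rename (Equiv.sumEmpty (Fin 3) (Fin 0)) P, fun h0 => hP0 ?_, ?_, ?_⟩
      · exact (MvPolynomial.rename_injective _ hinj) (by rw [h0, map_zero])
      · exact (MvPolynomial.totalDegree_rename_le _ _).trans hPd
      · rw [MvPolynomial.aeval_rename, ← hP]
        congr 2
        funext v
        rcases v with v | v
        · rfl
        · exact v.elim0
    · rintro ⟨P, hP0, hPd, hP⟩
      refine ⟨MvPolynomial.rename Sum.inl P, fun h0 => hP0 ?_, (MvPolynomial.totalDegree_rename_le _ _).trans hPd, ?_⟩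
      · exact (MvPolynomial.rename_injective _ Sum.inl_injective) (by rw [h0, map_zero])
      · rw [MvPolynomial.aeval_rename]
        exact hP
  simp only [h5]

end Pool.Agent.Results.MP_48b3e2_nt.TrilogarithmsAlongMultiples
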